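import Pool.Agent.Helper59.SL.GoalsG

/-! Packet SGNB of project SL (MP_fc6b1e_nt): the eigenvalues of complex conjugations. -/

namespace Pool.Agent.Helper58.SLG.SGNB

open Pool.Agent.Helper51.SigLeo Pool.Agent.Helper51.SixExp Pool.Agent.Helper17.SL NumberField Module
  TensorProduct Pool.Agent.Helper59.SL

universe u v w x y

theorem thm : S_SGNB.{u, v, w, x, y} := by
  intro F N K H _ _ _ _ _ _ _ _ _ _ _ _ _ _ _ _ _ _ _ E _ _ v₁ v₂ ψ η hS hψ hη
  constructor
  · intro φ g hφ hg h1
    have h2 : ψ g = ψ 1 := by
      rw [map_one]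
      exact Units.ext h1
    have h3 : g = 1 := hψ h2
    subst h3
    refine hS.cplx φ hφ ?_
    rw [hg]
    exact RingHom.ext fun x ↦ rfl
  · intro φ γ hφ hγ
    have hN : ∀ x : N, γ (algebraMap N H x) = algebraMap N H x := by
      have h1 : (φ.comp (algebraMap N H)).comp (algebraMap F N) = v₁ := by
        rw [RingHom.comp_assoc, ← IsScalarTower.algebraMap_eq, hφ]
      have h2 := hS.real _ h1
      intro x
      have h3 := RingHom.congr_fun h2 x
      have h4 := RingHom.congr_fun hγ (algebraMap N H x)
      refine φ.injective ?_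
      exact h4.symm.trans h3
    have hr : AlgEquiv.restrictNormalHom N γ = 1 := by
      refine AlgEquiv.ext fun x ↦ (algebraMap N H).injective ?_
      exact (AlgEquiv.restrictNormal_commutes γ N x).trans (hN x)
    have hη1 : η γ ≠ 1 := by
      intro h
      have hK := (hη γ).1 h
      have h5 : ComplexEmbedding.conjugate (φ.comp (algebraMap K H)) =
          φ.comp (algebraMap K H) := by
        refine RingHom.ext fun x ↦ ?_
        have h6 := RingHom.congr_fun hγ (algebraMap K H x)
        refine h6.trans ?_
        exact congrArg φ (hK x)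
      exact conjugate_ne (φ.comp (algebraMap K H)) h5
    have hη2 : η γ = -1 := (Int.units_eq_one_or (η γ)).resolve_left hη1
    rw [hr, map_one, hη2]
    simp only [Units.val_one, one_mul, Units.val_neg, Int.cast_neg, Int.cast_one]
    intro h
    have h7 : (2 : E) = 0 := by linear_combination -h
    exact two_ne_zero h7

end Pool.Agent.Helper58.SLG.SGNB
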